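import Pool.Agent.K3h74.SZ.Stm

/-!
# The genus polynomial is squarefree for `t ≠ 0, 1` (brick DSTA)
-/

set_option autoImplicit false

namespace Pool.Agent.K3h40.SZ

open Polynomial Finset Pool.Agent.K3h74.SZ

theorem cover_eval (k : ℕ) (Q : ℂ[X]) (hd : Q.natDegree ≤ k) (y : ℂ) (hy : y ≠ 0) :
    (cover k Q).eval y = (-4 * y) ^ k * Q.eval ((y - 1) ^ 2 / (-4 * y)) := by
  have hy4 : (-4 * y) ≠ 0 := mul_ne_zero (by norm_num) hy
  unfold cover
  rw [eval_finsetSum, eval_eq_sum_range' (n := k + 1) (by omega), Finset.mul_sum]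
  refine Finset.sum_congr rfl fun j hj => ?_
  rw [Finset.mem_range] at hj
  have h1 : (-4 * y) ^ k = (-4 * y) ^ (k - j) * (-4 * y) ^ j := by
    rw [← pow_add]; congr 1; omega
  have h2 : (-4 * y) ^ j ≠ 0 := pow_ne_zero _ hy4
  have h3 : ((-4 : ℂ[X]) * X).eval y = -4 * y := by
    simp
  rw [eval_mul, eval_C, eval_mul, eval_pow, eval_pow, eval_pow, h3, eval_sub, eval_X, eval_one,
    div_pow, h1]
  field_simp

theorem cover_zero (k : ℕ) (Q : ℂ[X]) (hQ : Q.Monic) (hd : Q.natDegree = k) :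
    (cover k Q).eval 0 = 1 := by
  unfold cover
  rw [eval_finsetSum, Finset.sum_range_succ, Finset.sum_eq_zero]
  · have : Q.coeff k = 1 := by rw [← hd]; exact hQ
    simp [this]
  · intro j hj
    rw [Finset.mem_range] at hj
    have h3 : ((-4 : ℂ[X]) * X).eval 0 = 0 := by simp
    have h4 : (((-4 : ℂ[X]) * X) ^ (k - j)).eval 0 = 0 := by
      rw [eval_pow, h3, zero_pow (by omega)]
    rw [eval_mul, eval_mul, h4, mul_zero, mul_zero]

theorem cover_deriv (k : ℕ) (Q : ℂ[X]) (hd : Q.natDegree ≤ k) (y : ℂ) (hy : y ≠ 0)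
    (h0 : Q.eval ((y - 1) ^ 2 / (-4 * y)) = 0) :
    (cover k Q).derivative.eval y =
      (-4 * y) ^ k * (Q.derivative.eval ((y - 1) ^ 2 / (-4 * y)) * (-(y ^ 2 - 1) / (4 * y ^ 2))) := by
  have hy4 : (-4 * y) ≠ 0 := mul_ne_zero (by norm_num) hy
  have h1 : HasDerivAt (fun z => (cover k Q).eval z) ((cover k Q).derivative.eval y) y :=
    (cover k Q).hasDerivAt y
  have h3 : HasDerivAt (fun z : ℂ => -4 * z) (-4) y := by
    have := (hasDerivAt_id' y).const_mul (-4 : ℂ)
    simpa using this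
  have hU : HasDerivAt (fun z : ℂ => (z - 1) ^ 2 / (-4 * z)) (-(y ^ 2 - 1) / (4 * y ^ 2)) y := by
    have h2 : HasDerivAt (fun z : ℂ => (z - 1) ^ 2) (2 * (y - 1)) y := by
      have := ((hasDerivAt_id' y).sub_const 1).fun_pow 2
      simpa using this
    have h4 := h2.fun_div h3 hy4
    refine h4.congr_deriv ?_
    field_simp
    ring
  have h5 : HasDerivAt (fun z : ℂ => Q.eval ((z - 1) ^ 2 / (-4 * z)))
      (Q.derivative.eval ((y - 1) ^ 2 / (-4 * y)) * (-(y ^ 2 - 1) / (4 * y ^ 2))) y :=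
    HasDerivAt.comp y (Q.hasDerivAt _) hU
  have h6 : HasDerivAt (fun z : ℂ => (-4 * z) ^ k) (k * (-4 * y) ^ (k - 1) * (-4)) y :=
    h3.fun_pow k
  have h7 := h6.mul h5
  have h8 : (fun z => (cover k Q).eval z) =ᶠ[nhds y]
      ((fun z : ℂ => (-4 * z) ^ k) * fun z : ℂ => Q.eval ((z - 1) ^ 2 / (-4 * z))) := by
    filter_upwards [eventually_ne_nhds hy] with z hz
    exact cover_eval k Q hd z hz
  have h9 := h1.unique (h7.congr_of_eventuallyEq h8)
  rw [h9, h0]
  ring

theorem t_DSTA : S_DSTA := by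
  intro k δ e Q hk hδ hQ t ht0 ht1
  obtain ⟨R, hR⟩ : ∃ R : ℂ[X], R = Q.map (sp t) := ⟨_, rfl⟩
  have hm : R.Monic := by rw [hR]; exact hQ.monic.map _
  have hd : R.natDegree = k := by rw [hR, hQ.monic.natDegree_map, hQ.deg]
  have hs : R.Separable := by rw [hR]; exact hQ.sep t ht0 ht1
  have h1 : R.eval 1 ≠ 0 := by rw [hR]; exact hQ.one t ht0 ht1
  have h0 : R.eval 0 ≠ 0 := by
    rw [← coeff_zero_eq_eval_zero, hR, coeff_map]
    rcases hQ.zero with h | h
    · rw [h, map_pow, sp_X]
      exact pow_ne_zero _ ht0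
    · rw [h, map_neg, map_pow, sp_X]
      exact neg_ne_zero.2 (pow_ne_zero _ ht0)
  rw [← hR]
  -- the values of the cover
  have c0 : (cover k R).eval 0 = 1 := cover_zero k R hm hd
  have c1 : (cover k R).eval 1 ≠ 0 := by
    rw [cover_eval k R hd.le 1 one_ne_zero]
    have : ((1 : ℂ) - 1) ^ 2 / (-4 * 1) = 0 := by norm_num
    rw [this]
    exact mul_ne_zero (pow_ne_zero _ (by norm_num)) h0
  have cm : (cover k R).eval (-1) ≠ 0 := by
    rw [cover_eval k R hd.le (-1) (by norm_num)]
    have : ((-1 : ℂ) - 1) ^ 2 / (-4 * -1) = 1 := by norm_num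
    rw [this]
    exact mul_ne_zero (pow_ne_zero _ (by norm_num)) h1
  have cs : ∀ y : ℂ, (cover k R).eval y = 0 → (cover k R).derivative.eval y ≠ 0 := by
    intro y hy
    have hy0 : y ≠ 0 := by
      rintro rfl
      rw [c0] at hy
      exact one_ne_zero hy
    have hy1 : y ≠ 1 := by
      rintro rfl
      exact c1 hy
    have hym : y ≠ -1 := by
      rintro rfl
      exact cm hy
    rw [cover_eval k R hd.le y hy0] at hy
    have hU := (mul_eq_zero.1 hy).resolve_left (pow_ne_zero _ (mul_ne_zero (by norm_num) hy0))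
    rw [cover_deriv k R hd.le y hy0 hU]
    refine mul_ne_zero (pow_ne_zero _ (mul_ne_zero (by norm_num) hy0)) (mul_ne_zero ?_ ?_)
    · intro h
      have h2 := hs
      rw [separable_def] at h2
      obtain ⟨a, b, hab⟩ := h2
      have h3 := congrArg (fun p : ℂ[X] => p.eval ((y - 1) ^ 2 / (-4 * y))) hab
      simp only [eval_add, eval_mul, eval_one, hU, h, mul_zero, add_zero] at h3
      exact zero_ne_one h3
    · refine div_ne_zero (neg_ne_zero.2 ?_) (mul_ne_zero (by norm_num) (pow_ne_zero _ hy0))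
      intro h
      have h2 : (y - 1) * (y + 1) = 0 := by linear_combination h
      rcases mul_eq_zero.1 h2 with h3 | h3
      · exact hy1 (sub_eq_zero.1 h3)
      · exact hym (eq_neg_of_add_eq_zero_left h3)
  -- the base
  have bs : ∀ y : ℂ, (base k δ R).eval y = 0 →
      y ≠ 0 ∧ (base k δ R).derivative.eval y ≠ 0 := by
    intro y hy
    have hδ' : δ = 0 ∨ δ = 1 := by omega
    rcases hδ' with rfl | rfl
    · have hb : base k 0 R = cover k R := by unfold base; rw [pow_zero, one_mul]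
      rw [hb] at hy ⊢
      refine ⟨?_, cs y hy⟩
      rintro rfl
      rw [c0] at hy
      exact one_ne_zero hy
    · have hb : base k 1 R = (X - 1) * cover k R := by unfold base; rw [pow_one]
      rw [hb] at hy ⊢
      rw [eval_mul, eval_sub, eval_X, eval_one] at hy
      refine ⟨?_, ?_⟩
      · rintro rfl
        rw [c0] at hy
        norm_num at hy
      · rw [derivative_mul, derivative_sub, derivative_X, derivative_one, sub_zero, one_mul,
          eval_add, eval_mul, eval_sub, eval_X, eval_one]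
        by_cases h2 : y = 1
        · subst h2
          rw [sub_self, zero_mul, add_zero]
          exact c1
        · have h3 : y - 1 ≠ 0 := sub_ne_zero.2 h2
          have h4 := (mul_eq_zero.1 hy).resolve_left h3
          rw [h4, zero_add]
          exact mul_ne_zero h3 (cs y h4)
  apply Polynomial.Separable.squarefree
  rw [separable_def, isCoprime_iff_aeval_ne_zero_of_isAlgClosed ℂ ℂ]
  intro x
  by_cases hx : aeval x ((base k δ R).comp (X ^ 2)) = 0
  · right
    rw [coe_aeval_eq_eval, eval_comp, eval_pow, eval_X] at hx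
    obtain ⟨hx0, hx1⟩ := bs _ hx
    have hx2 : x ≠ 0 := by
      rintro rfl
      exact hx0 (by norm_num)
    rw [coe_aeval_eq_eval, derivative_comp, eval_mul, eval_comp, eval_pow, eval_X]
    refine mul_ne_zero ?_ hx1
    simp [hx2]
  · left
    exact hx

end Pool.Agent.K3h40.SZ
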