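import Pool.Agent.K3h74.SZ.Stm

/-!
# The discriminant of `w^ε y B(w x²)` (brick VAL)
-/

set_option autoImplicit false

namespace Pool.Agent.K3h40.SZ

open Polynomial Pool.Agent.W318 Finset NumberField IsDedekindDomain WithZero
open Pool.Agent.K3h74.SZ Pool.Agent.Y678.SZ

theorem t_VAL : S_VAL := by
  intro K _ _ v h ε B y w hh hB hBd hy hw hsq
  classical
  have hwy : w ^ ε * y ≠ 0 := mul_ne_zero (pow_ne_zero _ hw) hy
  have hPd : (B.comp (X ^ 2)).natDegree = h + h := by
    rw [natDegree_comp, hBd, natDegree_X_pow]; ring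
  have hPm : (B.comp (X ^ 2)).Monic :=
    hB.comp (monic_X_pow 2) (by rw [natDegree_X_pow]; norm_num)
  have hFd : (frmB ε B y w).natDegree = h + h := by
    unfold frmB
    rw [natDegree_C_mul hwy, natDegree_comp, hBd, natDegree_C_mul_X_pow 2 w hw]
    ring
  have hd2 : (X ^ 2 - C w : K[X]).natDegree = 2 := natDegree_X_pow_sub_C
  have h2 : (X ^ 2 - C w : K[X]) ≠ 0 := by
    intro h; rw [h, natDegree_zero] at hd2; omega
  have h0 : B.comp (X ^ 2) * (X ^ 2 - C w) ≠ 0 := mul_ne_zero hPm.ne_zero h2
  obtain ⟨M, _, _, _, W, E, hc, hsplit⟩ := exists_compat (B.comp (X ^ 2) * (X ^ 2 - C w)) v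
  have h0' : (B.comp (X ^ 2) * (X ^ 2 - C w)).map (algebraMap K M) ≠ 0 := by
    rwa [Ne, Polynomial.map_eq_zero]
  have hs1 : ((B.comp (X ^ 2)).map (algebraMap K M)).Splits :=
    hsplit.of_dvd h0' (Polynomial.map_dvd _ (dvd_mul_right _ _))
  have hs2 : ((X ^ 2 - C w : K[X]).map (algebraMap K M)).Splits :=
    hsplit.of_dvd h0' (Polynomial.map_dvd _ (dvd_mul_left _ _))
  have key : ∀ p : M[X], p.natDegree ≠ 0 → p.degree ≠ 0 := fun p h h' =>
    h (natDegree_eq_of_degree_eq_some (by simpa using h'))
  obtain ⟨s, hs⟩ := hs2.exists_eval_eq_zero (key _ (by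
    rw [natDegree_map, hd2]; omega))
  have hs' : s ^ 2 = algebraMap K M w := by
    simp only [Polynomial.map_sub, Polynomial.map_pow, Polynomial.map_X, Polynomial.map_C,
      eval_sub, eval_pow, eval_X, eval_C] at hs
    linear_combination hs
  obtain ⟨u, α, β, hu, huni, hne, hfac⟩ := exists_factor_form (absW W) (by omega : 1 ≤ h)
    (Or.inl hPd) hsq hs1
  set φ := algebraMap K M with hφ
  have hwy' : φ (w ^ ε * y) ≠ 0 := by rwa [Ne, map_eq_zero]
  have hs0 : s ≠ 0 := by
    rintro rfl
    rw [zero_pow (by norm_num)] at hs'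
    exact hw ((map_eq_zero φ).1 hs'.symm)
  -- the factorisation of the form
  have hF : (frmB ε B y w).map φ =
      C (φ (w ^ ε * y) * u) * ∏ i, (C (α i * s) * X + C (β i)) := by
    have e1 : (frmB ε B y w).map φ = C (φ (w ^ ε * y)) *
        ((B.comp (X ^ 2)).map φ).comp (C s * X) := by
      unfold frmB
      rw [Polynomial.map_mul, Polynomial.map_C, Polynomial.map_comp, Polynomial.map_comp, comp_assoc]
      congr 2
      rw [Polynomial.map_mul, Polynomial.map_C, Polynomial.map_pow, Polynomial.map_X, pow_comp,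
        X_comp, ← hs', C_pow]
      ring
    rw [e1, hfac, mul_comp, C_comp, Polynomial.prod_comp, C_mul, mul_assoc]
    congr 2
    refine Finset.prod_congr rfl fun i _ => ?_
    rw [add_comp, mul_comp, C_comp, C_comp, X_comp, C_mul]
    ring
  have hu' : φ (w ^ ε * y) * u ≠ 0 := mul_ne_zero hwy' hu
  have hdet : ∀ i j, α i * s * β j - α j * s * β i = s * (α i * β j - α j * β i) := by
    intro i j; ring
  have hne' : ∀ i j, i ≠ j → α i * s * β j - α j * s * β i ≠ 0 := by
    intro i j hij
    rw [hdet]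
    exact mul_ne_zero hs0 (hne i j hij)
  refine ⟨?_, hFd, ?_⟩
  · apply GoodForm.of_map φ
    rw [hF]
    exact goodForm_prod (by omega) hu' _ _ hne'
  · have hcard : 3 ≤ Fintype.card (Fin (h + h)) := by rw [Fintype.card_fin]; omega
    have a1 := abs_discN_prod_lin (absW W) hu' (fun i => α i * s) β hne' hcard
    have a2 := abs_discN_prod_lin (absW W) hu α β hne hcard
    rw [← hF, discN_map, Fintype.card_fin] at a1
    rw [← hfac, discN_map, Fintype.card_fin] at a2
    have a3 : ∏ i, ∏ j ∈ univ.erase i, absW W (α i * s * β j - α j * s * β i) =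
        absW W s ^ ((h + h) * (h + h - 1)) *
          ∏ i, ∏ j ∈ univ.erase i, absW W (α i * β j - α j * β i) := by
      have : ∀ i, ∏ j ∈ univ.erase i, absW W (α i * s * β j - α j * s * β i) =
          absW W s ^ (h + h - 1) * ∏ j ∈ univ.erase i, absW W (α i * β j - α j * β i) := by
        intro i
        simp only [hdet, map_mul]
        rw [Finset.prod_mul_distrib, Finset.prod_const, Finset.card_erase_of_mem (mem_univ _),
          Finset.card_univ, Fintype.card_fin]
      simp only [this]
      rw [Finset.prod_mul_distrib, Finset.prod_const, Finset.card_univ, Fintype.card_fin,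
        ← pow_mul, mul_comm (h + h - 1) (h + h)]
    have hdisc : discN (h + h) (B.comp (X ^ 2)) = (B.comp (X ^ 2)).discr := by
      rw [discN, if_pos hPd]
    rw [hdisc] at a2
    have a4 : absW W (φ (discN (h + h) (frmB ε B y w))) =
        absW W (φ (w ^ ((h + h - 1) * (2 * ε + h)) * y ^ (2 * (h + h - 1)) *
          (B.comp (X ^ 2)).discr)) := by
      have a5 : absW W s ^ ((h + h) * (h + h - 1)) = absW W (φ w) ^ (h * (h + h - 1)) := by
        rw [← hs', map_pow, ← pow_mul]
        congr 1
        ring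
      rw [a1, a3, a5, map_mul φ _ ((B.comp (X ^ 2)).discr), map_mul (absW W) _ (φ ((B.comp (X ^ 2)).discr)),
        a2]
      simp only [map_mul, map_pow, mul_pow, ← pow_mul]
      generalize absW W (φ w) = a
      generalize absW W (φ y) = b
      generalize absW W u = c
      generalize ∏ i, ∏ j ∈ univ.erase i, absW W (α i * β j - α j * β i) = P
      have e2 : a ^ ((h + h - 1) * (2 * ε + h)) =
          a ^ (ε * (2 * (h + h - 1))) * a ^ (h * (h + h - 1)) := by
        rw [← pow_add]
        congr 1
        ring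
      rw [e2]
      ring
    exact le_antisymm ((hc.le_iff _ _).mp a4.le) ((hc.le_iff _ _).mp a4.ge)

end Pool.Agent.K3h40.SZ
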